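import Pool.Agent.H882.MxRes

/-!
# MP_a325a5_ag: no atypical intersections for one hundred percent of the members of certain families of
subvarieties of the mixed Shimura varieties `Y(1)^n × G_m^k`

`Y(1)^n` is identified with `ℂ^n` by the elliptic modular function `jj = j = E₄³ / Δ`. The special
subvarieties of the mixed Shimura variety `Y(1)^n × G_m^k` are the products `Z × C` of a special
subvariety `Z` of `Y(1)^n` and a torsion coset `C` of the torus.

**The families.** Let `F ⊆ ℂ` be a field and `Y ⊆ ℂ^(n+k)` a subvariety over `F` of dimension `m`, or any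
set, which is in general position at infinity (`InGeneralPosition`): for each set `J` of `m + 1`
coordinates there is an equation `G_J (y_j, j ∈ J) = 0` for `Y`, over `F`, which contains the
monomial `∏ y_j ^ d_j` in which all the exponents are maximal. (So no `m + 1` coordinates become
infinite at the same point of the closure of `Y` in `(P¹)^(n+k)`. This implies that the dimension of `Y`
is at most `m`.) Let `A ∈ ℤ^(M × k)` be a matrix. For `s ∈ ℤ^(n+k)`, `t ∈ ℕ^M` and algebraic integers
`λ_i` let `X = family A s t λ Y` be the set of the points of `Y(1)^n × G_m^k` with the coordinates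

  `s_i + (t_1 ⋯ t_M) λ_i y_i` for `i ≤ n`, and
  `t_1^(A_(1,j)) ⋯ t_M^(A_(M,j)) (s_(n+j) + (t_1 ⋯ t_M) λ_(n+j) y_(n+j))` for `j ≤ k`,

with `y ∈ Y`. So `X` is the homothetic image of `Y` with centre `s` and ratio `(t_1 ⋯ t_M) λ`, translated
by the point `t^A` of the torus. If `Y` is irreducible of dimension `m` and `λ_i ≠ 0`, `t_l ≠ 0`, then `X`
is irreducible of dimension `m`.

**Generic matrices.** `A` is generic (`Generic`) if for each group `L` of characters of the torus there
is a row `a` of `A` such that for all sets `B` of fewer than `rank L` coordinates there is a character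
`χ ∈ L` which is zero on `B`, with `χ · a ≠ 0`. In other words: for each subspace `U ⊆ ℚ^k` some row of
`A` is in none of the spaces `U + ⟨e_j, j ∈ B⟩` with `|B| < k - dim U`. For example `A = (1)` is generic
for `k = 1`, and for all `k` the matrices with `M > (k - 1) 2^k` rows, any `k` of which are linearly
independent, for example `A_(l,j) = l^j`, `l = 1, …, M` (part (1) of the theorem).

**Theorem.** Let `n`, `k`, `M > 0` be given. There is a set `N ⊆ ℤ^(n+k) × ℕ^M` of density zero such that for
all generic matrices `A ∈ ℤ^(M × k)`, all fields `F ⊆ ℂ`, all `m` and all `Y ⊆ ℂ^(n+k)` over `F` in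
general position at infinity, of dimension at most `m`, and all `D > 0` the following holds: for all
`(s, t)` outside of `N` (one hundred percent of the parameters, which do not depend on `A`, `F`, `m`, `Y`, `D`)
with finitely many exceptions `|s_i|, t_l < T(A, F, m, Y, D)` and for all algebraic integers `λ_i`,
`X = family A s t λ Y` has no atypical intersection with the products `Z × C`, for all special
subvarieties `Z` of `Y(1)^n` and all cosets `C` of algebraic subgroups of the torus by points whose
coordinates are units away from `D`; the torsion cosets are a special case for each `D`.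

`NoAtypical F D m X` means that for each point `x` of `X ∩ (Z × C)` the sets of coordinates of `x` which are
algebraically independent over `F` have at most `m + dim (Z × C) - (n + k)` elements, where
`dim C = k - rank L` for the group `L` of the characters which are constant on `C`. If `Y` is defined
over the finitely generated field `F`, then a component `a` of an intersection of `X` and `Z × C` has a
point which is generic over the algebraic closure of `F`, and so `dim a ≤ dim X + dim (Z × C) - (n + k)`,
i.e. `a` is not atypical. With `Z × C = ⟨X⟩` this shows that `⟨X⟩ = Y(1)^n × G_m^k` if `X` is irreducible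
of dimension `m`. So the atypical Hodge locus of `X` is empty, and Q1 is true for these `X`.

**Relation to earlier results.** For `k = 0`, number fields `F` and `M = 1` this is part (B) of
`MP_d83ecd_ag.IntegralCentres`. The torus coordinates, complex coefficients together with intersections
of positive dimension, and the parameters `t_1, …, t_M` are new. The library's results on families and
translates in `Y(1)^n × G_m^k` (for example `MP_defd1c_ag.MixedTranslates`, and for this problem
`OneNullSet`, `NumberFieldFamilies` and `PartialDegenerations`; `MP_dd1803_nt.TropicalCriterion`) use places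
or degenerate members at which modular coordinates tend to the cusps; here all modular
coordinates have good ordinary reduction at the places which are used, and the centre `s` is an
arbitrary integral point outside of a set of density zero. For tori (`n = 0`) compare also the library
results on scalings (`SUnitScalings`) and on tropically generic families.

**Idea of the proof.** Let `L` be the group of the characters which are constant on `C`, and let `p` be a
large prime which divides `t_l` and none of the other parameters. One embeds `ℂ` into `ℂ_p` such that the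
coefficients of the equations of `Y` are units, and such that the given independent coordinates of the
point have given large absolute values: `p^(N^(j+1))` for the coordinate `j` of the torus. At most `m`
coordinates of `y` are not integral. By the theory of the canonical isogeny
and Kronecker's congruence (module `Core`, from `MP_d83ecd_ag.IntegralCentres`) the modular coordinates of
`x` for which `y_i` is integral are independent on `Z`. The other torus coordinates have the
absolute values of `p^(w A_(l,j))`. So the characters in `L` which are zero at the bad torus coordinates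
are orthogonal to the row `l` of `A` up to the terms with `N^(j+1)`, and these are zero, because the
set of the bad coordinates is the same for infinitely many `N`. If this is so for all `l`, then `rank L` is
small since `A` is generic. For one hundred percent of `(s, t)` there are such primes for all `l`.
-/

set_option autoImplicit false

namespace Pool.Agent.Results.MP_a325a5_ag.ModularTimesTorus

open UpperHalfPlane H294ZP

/-- A special subvariety of dimension `r` of `Y(1)^n`: a map `cls` from the coordinates onto `r`
classes (`none` for the constant coordinates), an integral matrix of positive determinant for each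
coordinate, and a CM point for each coordinate. -/
structure SpecialVariety (n r : ℕ) where
  cls : Fin n → Option (Fin r)
  surj : ∀ l : Fin r, ∃ i, cls i = some l
  mat : Fin n → Matrix (Fin 2) (Fin 2) ℤ
  det_pos : ∀ i, 0 < (mat i).det
  cm : Fin n → ℍ
  isCM : ∀ i, IsCM (cm i)

/-- The points of a special subvariety: the constant coordinates are the singular moduli
`j (cm i)`, the other coordinates are `j (g_i z_l)`, where `l` is the class of `i`, `g_i = mat i` and
`z_1, …, z_r` are free parameters in the upper half plane. -/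
def SpecialVariety.locus {n r : ℕ} (Z : SpecialVariety n r) : Set (Fin n → ℂ) :=
  {x | ∃ z : Fin r → ℍ, ∀ i, (Z.cls i = none → x i = jj (Z.cm i)) ∧
    ∀ l, Z.cls i = some l → ∃ w : ℍ,
      (w : ℂ) * (Z.mat i 1 0 * z l + Z.mat i 1 1) = Z.mat i 0 0 * z l + Z.mat i 0 1 ∧ x i = jj w}

/-- A coset of an algebraic subgroup of `G_m^k`: `chars` is a group of characters which are constant on
the coset, and `pt` is a point of the coset whose coordinates are units away from `D`. For points of
finite order this is true for all `D`. -/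
structure Coset (D k : ℕ) where
  chars : AddSubgroup (Fin k → ℤ)
  pt : Fin k → ℂ
  ne_zero : ∀ j, pt j ≠ 0
  unit : ∀ j, IsIntegral ℤ ((D : ℂ) * pt j) ∧ IsIntegral ℤ ((D : ℂ) * (pt j)⁻¹)

/-- The points of a coset. Its dimension is `k - rank chars`. -/
def Coset.locus {D k : ℕ} (C : Coset D k) : Set (Fin k → ℂ) :=
  {z | (∀ j, z j ≠ 0) ∧ ∀ χ ∈ C.chars, ∏ j, z j ^ χ j = ∏ j, C.pt j ^ χ j}

/-- For each special subvariety `Z` of dimension `r`, each coset `C` (of dimension
`k - rank C.chars`), and each point of `X ∩ (Z × C)`: families of coordinates which are algebraically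
independent over `F` have at most `m + dim (Z × C) - (n + k)` elements. -/
def NoAtypical {n k : ℕ} (F : Subfield ℂ) (D m : ℕ) (X : Set ((Fin n → ℂ) × (Fin k → ℂ))) : Prop :=
  ∀ (r : ℕ) (Z : SpecialVariety n r) (C : Coset D k), ∀ x ∈ X, x.1 ∈ Z.locus → x.2 ∈ C.locus →
    ∀ (W : Finset (Fin n)) (V : Finset (Fin k)),
      AlgebraicIndependent F (Sum.elim (fun i : W => x.1 i) (fun j : V => x.2 j)) →
      n + W.card + V.card + Module.finrank ℤ C.chars ≤ m + r

/-- An equation over `F` for `Y` in the coordinates in `J`: `d` is the vector of the largest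
exponents, and it is one of the exponents of the equation. -/
structure Equation {n : ℕ} (F : Subfield ℂ) (Y : Set (Fin n → ℂ)) (J : Finset (Fin n)) where
  G : MvPolynomial (Fin n) ℂ
  coeff_mem : ∀ u, G.coeff u ∈ F
  d : Fin n →₀ ℕ
  le : ∀ u ∈ G.support, u ≤ d
  supp : d.support ⊆ J
  top : G.coeff d ≠ 0
  eq_zero : ∀ y ∈ Y, MvPolynomial.eval y G = 0

/-- `Y` is in general position at infinity, of dimension at most `m`. -/
def InGeneralPosition {n : ℕ} (F : Subfield ℂ) (m : ℕ) (Y : Set (Fin n → ℂ)) : Prop :=
  ∀ J : Finset (Fin n), J.card = m + 1 → Nonempty (Equation F Y J)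

/-- The homothetic image of `Y` with centre `s` and ratio `(t_1 ⋯ t_M) λ`, translated by the point `t^A`
of the torus. -/
def family {n k M : ℕ} (A : Fin M → Fin k → ℤ) (s : Fin (n + k) → ℤ) (t : Fin M → ℕ)
    (lam : Fin (n + k) → ℂ) (Y : Set (Fin (n + k) → ℂ)) : Set ((Fin n → ℂ) × (Fin k → ℂ)) :=
  {x | ∃ y ∈ Y, (∀ i : Fin n, x.1 i = (s (Fin.castAdd k i) : ℂ) +
      (∏ l, (t l : ℂ)) * lam (Fin.castAdd k i) * y (Fin.castAdd k i)) ∧
    ∀ j : Fin k, x.2 j = (∏ l, (t l : ℂ) ^ A l j) * ((s (Fin.natAdd n j) : ℂ) +
      (∏ l, (t l : ℂ)) * lam (Fin.natAdd n j) * y (Fin.natAdd n j))}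

/-- For each group `L` of characters there is a row of `A` such that for all sets `B` of fewer than
`rank L` coordinates a character in `L` is zero on `B` and not orthogonal to this row. -/
def Generic {M k : ℕ} (A : Fin M → Fin k → ℤ) : Prop :=
  ∀ L : AddSubgroup (Fin k → ℤ), ∃ l, ∀ B : Finset (Fin k), B.card < Module.finrank ℤ L →
    ∃ χ ∈ L, (∀ j ∈ B, χ j = 0) ∧ ∑ j, χ j * A l j ≠ 0

/-- `N` has density zero in `ℤ^n × ℕ^M`. -/
def DensityZero {n M : ℕ} (N : Set ((Fin n → ℤ) × (Fin M → ℕ))) : Prop :=
  ∀ ε : ℝ, 0 < ε → ∃ H₀ : ℕ, ∀ H : ℕ, H₀ ≤ H →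
    ({q : (Fin n → ℤ) × (Fin M → ℕ) | q ∈ N ∧ (∀ i, |q.1 i| ≤ (H : ℤ)) ∧
      ∀ l, q.2 l ≤ H}.ncard : ℝ) ≤ ε * (H : ℝ) ^ (n + M)

open Pool.Agent.H882 Pool.Agent.Y226

/-- The theorem. -/
theorem result (n k M : ℕ) (hM : 0 < M) :
    -- (1)
    (∀ A : Fin M → Fin k → ℤ, (k - 1) * 2 ^ k < M →
      (∀ f : Fin k → Fin M, Function.Injective f → (Matrix.of fun i j => A (f i) j).det ≠ 0) →
        Generic A) ∧
    -- (2)
    ∃ N : Set ((Fin (n + k) → ℤ) × (Fin M → ℕ)), DensityZero N ∧
      ∀ (A : Fin M → Fin k → ℤ), Generic A → ∀ (F : Subfield ℂ) (m : ℕ)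
        (Y : Set (Fin (n + k) → ℂ)), InGeneralPosition F m Y → ∀ D : ℕ, 0 < D →
        ∃ T : ℕ, ∀ (s : Fin (n + k) → ℤ) (t : Fin M → ℕ), (∀ l, 0 < t l) →
          ((∃ l, T ≤ t l) ∨ ∃ i, (T : ℤ) ≤ |s i|) → (s, t) ∉ N →
          ∀ lam : Fin (n + k) → ℂ, (∀ i, IsIntegral ℤ (lam i)) →
            NoAtypical F D m (family A s t lam Y) := by
  classical
  refine ⟨fun A hA1 hA2 => gen_of_det A hA1 hA2, ?_⟩
  obtain ⟨E, Γ, hE, hΓ, hΓ2, hcore⟩ := core_all n
  obtain ⟨N, hN, hNB⟩ := null_mx hM (fun p => EM n k p (E p)) Γ
    (fun η hη => small_EM E (small_E E hE) η hη) (fun p _ _ a => (hΓ p a).1)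
    (fun p _ _ a b z => hΓ2 p z a b)
  refine ⟨N, hN, fun A hA F m Y hY D hD => ?_⟩
  let G : Finset (Fin (n + k)) → MvPolynomial (Fin (n + k)) ℂ := fun J =>
    if hJ : J.card = m + 1 then (hY J hJ).some.G else 0
  let S : Finset ℂ := (Finset.univ : Finset (Finset (Fin (n + k)))).biUnion fun J =>
    (G J).support.image (G J).coeff
  have hS : ∀ b ∈ S, b ≠ 0 := by
    intro b hb
    obtain ⟨J, -, hJ⟩ := Finset.mem_biUnion.1 hb
    obtain ⟨u, hu, rfl⟩ := Finset.mem_image.1 hJ
    exact MvPolynomial.mem_support_iff.1 hu
  have hSF : ∀ b ∈ S, b ∈ F := by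
    intro b hb
    obtain ⟨J, -, hJ⟩ := Finset.mem_biUnion.1 hb
    obtain ⟨u, hu, rfl⟩ := Finset.mem_image.1 hJ
    by_cases h : J.card = m + 1
    · have hG : G J = (hY J h).some.G := dif_pos h
      rw [hG]
      exact (hY J h).some.coeff_mem u
    · have hG : G J = 0 := dif_neg h
      rw [hG]
      exact F.zero_mem
  obtain ⟨B, hB⟩ := good_embed_W F S hS hSF
  obtain ⟨T, hT⟩ := hNB (B + 3 + D)
  refine ⟨T, fun s t ht hTt hst lam hlam r Z C x hx hxZ hxC W V hind => ?_⟩
  obtain ⟨y, hy, hx1, hx2⟩ := hx
  have hPM := hT s t ht hTt hst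
  have h := gen_ineq (n := n) (m := m) (r := r) (w := W.card) hA C.chars V fun l => ?_
  · exact h
  obtain ⟨f, hf, hf1, hf2⟩ := hPM l
  -- a prime for which no coordinate is exceptional
  obtain ⟨i₀, hi₀⟩ : ∃ i₀, ∀ a : Fin n, x.1 a ∉ Γ (f i₀) (s (Fin.castAdd k a) : ZMod (f i₀)) := by
    by_contra hno
    push Not at hno
    choose g hg using hno
    obtain ⟨i, i', hii, hgi⟩ := Fintype.exists_ne_map_eq_of_card_lt
      (fun i => Fin.castAdd k (g i)) (by simp)
    have hgi' : g i = g i' := Fin.castAdd_injective n k hgi
    have h1 := hg i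
    have h2 := hg i'
    rw [← hgi'] at h2
    exact hf2 i i' hii (Fin.castAdd k (g i)) _ h1 h2
  obtain ⟨p1, p2, p3, p4, p5, p6⟩ := hf1 i₀
  have hpE : (fun i : Fin n => (s (Fin.castAdd k i) : ZMod (f i₀))) ∉ E (f i₀) := fun h =>
    p6 (Or.inl h)
  have hpk : ∀ j : Fin k, ¬ ((f i₀ : ℕ) : ℤ) ∣ s (Fin.natAdd n j) := fun j hd =>
    p6 (Or.inr ⟨j, (ZMod.intCast_zmod_eq_zero_iff_dvd _ _).2 hd⟩)
  obtain ⟨c, hc⟩ : f i₀ ∣ ∏ l, t l := p4.trans (Finset.dvd_prod_of_mem t (Finset.mem_univ l))
  have hcC : (∏ l, (t l : ℂ)) = ((f i₀ : ℕ) : ℂ) * (c : ℂ) := by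
    rw [← Nat.cast_prod, hc, Nat.cast_mul]
  have hDp : ¬ f i₀ ∣ D := fun h => by
    have := Nat.le_of_dvd hD h
    omega
  refine mx_local p1 (hcore _ p1 (by omega)) (S := S)
    (fun C' _ _ _ _ φ₀ hpC => hB (f i₀) p1 (by omega) C' φ₀ hpC) y (m := m) (fun J hJ => ?_) s hpE hpk
    (fun i => (c : ℂ) * lam i) (fun i => (isIntegral_natCast (a := c)).mul (hlam i)) t A l
    (ht l).ne' p4 p5 x.1 x.2 (fun i => ?_) (fun j => ?_)
    ⟨Z.cls, Z.surj, Z.mat, Z.det_pos, Z.cm, Z.isCM⟩ hxZ hi₀ C.chars C.pt C.ne_zero
    (fun j => ⟨⟨D, hDp, (C.unit j).1⟩, ⟨D, hDp, (C.unit j).2⟩⟩) hxC.2 W V hind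
  · have hG : G J = (hY J hJ).some.G := dif_pos hJ
    refine ⟨(hY J hJ).some.G, (hY J hJ).some.d, (hY J hJ).some.le, (hY J hJ).some.supp,
      (hY J hJ).some.top, fun u hu => ?_, (hY J hJ).some.eq_zero y hy⟩
    refine Finset.mem_biUnion.2 ⟨J, Finset.mem_univ J, Finset.mem_image.2 ⟨u, ?_, ?_⟩⟩
    · rw [hG]
      exact hu
    · rw [hG]
  · rw [hx1 i, hcC]
    ring
  · rw [hx2 j, hcC]
    ring

end Pool.Agent.Results.MP_a325a5_ag.ModularTimesTorus
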