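import Pool.Agent.H883.ZS.Aff

set_option autoImplicit false

/-!
# Points near subgroups on products of lines

Let `V` be the product of `c` lines `a_i x_i + b_i y_i = 1` in the torus `G_m^{2c}`, with nonzero
coefficients in a number field `K0`.  The torus is a mixed Shimura variety, its special
subvarieties are the torsion cosets, and the conjecture predicts that the points of `V` in
the algebraic subgroups of dimension less than `c` are not Zariski dense in `V`.

We show a stronger statement for subgroups of small dimension `r`: there is a positive `ε` such that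
the points `P` of `V` over number fields whose distance (for the height) from some algebraic subgroup of
dimension at most `r` is at most `ε` lie in a closed subset of dimension at most `r` if `r ≤ 3`, and of
dimension at most `(r - 1) ^ 2 + 1` for every `r ≥ 1`. For `c ≤ 4` all dimensions `r < c` are
covered.

(The bound `r` is attained for equal lines: divide the set of the coordinates into `r` nonempty classes.
The points with equal coordinates in every class are a subvariety of dimension `r`, and those among them
with one member of `x_i, y_i` a root of unity in every class lie in subgroups of dimension `r`.)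
-/

namespace Pool.Agent.Results.MP_a325a5_ag.NearSubgroups

open NumberField

/-- the monomial `w^e`, the product of the `w_l ^ e_l` -/
def mon {F κ : Type} [Field F] [Fintype κ] (w : κ → F) (e : κ → ℤ) : F := ∏ l, w l ^ e l

/-- The point `w` of the torus satisfies `m` independent multiplicative relations `w^r = 1`; in
other words it lies in an algebraic subgroup of codimension `m` (equivalently at least `m`). -/
def Codim {F κ : Type} [Field F] [Fintype κ] (w : κ → F) (m : ℕ) : Prop :=
  ∃ R : Fin m → κ → ℤ, LinearIndependent ℤ R ∧ ∀ k, mon w (R k) = 1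

/-- the absolute logarithmic Weil height of an element of a number field -/
noncomputable def ht {K : Type} [Field K] [NumberField K] (x : K) : ℝ :=
  Height.logHeight₁ x / Module.finrank ℚ K

/-- `P = (x, y)` is a point over `K` of the product `V` of the lines `a_i x_i + b_i y_i = 1` in
the torus of dimension `2 c`; `x_i = P (Sum.inl i)`, `y_i = P (Sum.inr i)`. -/
def OnV {K0 : Type} [Field K0] {c : ℕ} (a b : Fin c → K0) {K : Type} [Field K] [Algebra K0 K]
    (P : Fin c ⊕ Fin c → K) : Prop :=
  (∀ r, P r ≠ 0) ∧
    ∀ i, algebraMap K0 K (a i) * P (Sum.inl i) + algebraMap K0 K (b i) * P (Sum.inr i) = 1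

/-- `P = g e` with `g` in an algebraic subgroup of dimension at most `r`, where all
coordinates of `e` have height at most `ε` -/
def NearSubgroup {c : ℕ} {K : Type} [Field K] [NumberField K] (P : Fin c ⊕ Fin c → K) (r : ℕ)
    (ε : ℝ) : Prop :=
  ∃ g e : Fin c ⊕ Fin c → K, (∀ r, P r = g r * e r) ∧ (∃ m, Codim g m ∧ 2 * c ≤ m + r) ∧
    ∀ r, ht (e r) ≤ ε

/-- The common zero set of the polynomials `G_e(x_{e(1)}, …, x_{e(k)})`, `e` running through the
injections of `{1, …, k}` into `{1, …, c}`, in the affine space of dimension `c` has dimension less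
than `k`, over every extension field `L` of `K0`: the transcendence degree of the coordinate ring of
every irreducible subvariety of the zero set is less than `k`. -/
def SmallDim {K0 : Type} [Field K0] {c k : ℕ} (G : (Fin k ↪ Fin c) → MvPolynomial (Fin k) K0) :
    Prop :=
  ∀ (L : Type) [Field L] [Algebra K0 L] (I : Ideal (MvPolynomial (Fin c) L)), I.IsPrime →
    (∀ e : Fin k ↪ Fin c,
      MvPolynomial.rename e (MvPolynomial.map (algebraMap K0 L) (G e)) ∈ I) →
    Algebra.trdeg L (MvPolynomial (Fin c) L ⧸ I) < k

theorem result (K0 : Type) [Field K0] [NumberField K0] (c k r : ℕ)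
    (hr : (r < k ∧ r ≤ 3) ∨ (r - 1) ^ 2 + 2 ≤ k) (a b : Fin c → K0)
    (ha : ∀ i, a i ≠ 0) (hb : ∀ i, b i ≠ 0) :
    ∃ G : (Fin k ↪ Fin c) → MvPolynomial (Fin k) K0, SmallDim G ∧ ∃ ε : ℝ, 0 < ε ∧
      ∀ (K : Type) [Field K] [NumberField K] [Algebra K0 K] (P : Fin c ⊕ Fin c → K),
        OnV a b P → NearSubgroup P r ε →
        ∀ e : Fin k ↪ Fin c, MvPolynomial.aeval (fun j => P (Sum.inl (e j))) (G e) = 0 := by
  obtain ⟨G, hG, ε, hε, h⟩ := Pool.Agent.H883.ZS.near_all K0 c k r hr a b ha hb
  refine ⟨G, ?_, ε, hε, ?_⟩
  · intro L _ _ I hI hmem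
    have : IsDomain (MvPolynomial (Fin c) L ⧸ I) := Ideal.Quotient.isDomain I
    obtain ⟨d, hd⟩ := Cardinal.lt_aleph0.1
      (_root_.trdeg_lt_aleph0_of_finiteType (R := L) (S := MvPolynomial (Fin c) L ⧸ I))
    rw [hd]
    exact_mod_cast Pool.Agent.H883.ZS.dim_lt I hI G hG hmem d hd
  · intro K _ _ _ P hP hnear
    obtain ⟨g, e, hge, hcod, he⟩ := hnear
    exact h K P g e hP.1 hP.2 hge hcod he

end Pool.Agent.Results.MP_a325a5_ag.NearSubgroups
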